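import Pool.Agent.CYE.StmtsB
import Pool.Agent.CYE.StmtsD

/-! # Squad CYE (MP_734b60_nt), row DIF: for a generic shift the types agree. -/

set_option autoImplicit false

open Polynomial IsLocalRing

namespace Pool.Agent.CYE.H10

open Pool.Agent.CYE

/-- `true ↦ 1`, `false ↦ 0`. -/
def bi (x : Bool) : ℤ := if x then 1 else 0

theorem bi_sub (x y : Bool) : bi x - bi y = 0 ∨ bi x - bi y = 1 ∨ bi x - bi y = -1 := by
  cases x <;> cases y <;> simp [bi]

theorem bi_inj {x y : Bool} (h : bi x - bi y = 0) : x = y := by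
  cases x <;> cases y <;> simp [bi] at h ⊢

theorem co_add {L : Type} [Field L] (m : ℕ) (A B : L[X]) (k : ℕ) :
    co L m (A + B) k = co L m A k + co L m B k := by
  unfold co
  rw [Polynomial.coe_add, add_mul, map_add]

theorem co_Am (hA : AffStmt) {p m : ℕ} {g h : ℤ[X]} (F : Fm p m g h) (L : Type) [Field L]
    [CharP L p] (x y : Bool) (k : ℕ) :
    co L m (Am L m g h x y) k = co L m (Am L m g h false false) k +
      (bi x : L) * co L m (Vm L m) k + (bi y : L) * co L m (Wm L m) k := by
  obtain ⟨_, _, _, _, _, h1, h2, h3⟩ := hA p m g h F L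
  cases x <;> cases y
  · simp [bi]
  · rw [h2, co_add]; simp [bi]
  · rw [h1, co_add]; simp [bi]
  · rw [h3, co_add, co_add]; simp [bi]

theorem ev_shS (hE : EvlStmt) {ι : Type} [Fintype ι] [DecidableEq ι] {q : ι → ℕ}
    [∀ i, Fact (q i).Prime] {L : Type} [Field L] {α : ι → L}
    (hp : ∀ i, IsPrimitiveRoot (α i) (q i)) (hi : Function.Injective q) (T : Finset ι)
    (s b : Pt q) : ev α (shS T s b) = ev α b * ∏ i ∈ T, α i ^ (s i).val := by
  have h0 : shS T s b = b + (fun j => if j ∈ T then s j else 0) := by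
    funext j
    by_cases hj : j ∈ T <;> simp [shS, hj]
  rw [h0, (hE ι q L α hp hi).1]
  congr 1
  unfold ev
  symm
  rw [← Finset.prod_subset (Finset.subset_univ T)
    (f := fun i => α i ^ (if i ∈ T then s i else 0 : ZMod (q i)).val)]
  · exact Finset.prod_congr rfl (fun i hi => by simp [hi])
  · intro i _ hi
    simp [hi]

theorem key {ι : Type} {L : Type} [Field L] (c : L) (hc : c ≠ 0) (s : Finset (Finset ι))
    (E Q Y : Finset ι → L) (k : ℕ) (hE : ∀ T ∈ s, E T = c * Q T)
    (h : ∑ T ∈ s, (-1) ^ T.card * (E T ^ k * Y T) = 0) :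
    ∑ T ∈ s, (-1) ^ T.card * (Q T ^ k * Y T) = 0 := by
  have h1 : c ^ k * ∑ T ∈ s, (-1) ^ T.card * (Q T ^ k * Y T) = 0 := by
    rw [Finset.mul_sum, ← h]
    refine Finset.sum_congr rfl (fun T hT => ?_)
    rw [hE T hT, mul_pow]
    ring
  exact (mul_eq_zero.mp h1).resolve_left (pow_ne_zero k hc)

theorem shS_neg {ι : Type} [DecidableEq ι] {q : ι → ℕ} (T : Finset ι) (s b : Pt q) :
    shS T (-s) (-b) = -shS T s b := by
  funext j
  by_cases hj : j ∈ T
  · simp only [shS, hj, if_true, Pi.neg_apply]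
    ring
  · simp only [shS, hj, if_false, Pi.neg_apply]

theorem dif (hE : EvlStmt) (hA : AffStmt) (hC : ColStmt) (hO : CoeStmt) : DifStmt := by
  intro ι _ _ q _ p m g h L _ a α S lg hlg s b b' hG z1 z2 z3 z4
  by_contra hne
  have := S.chr
  have F := S.F
  have hpp := F.hp
  -- the sequences of differences
  set e : Finset ι → ℤ := fun T => bi (tt g h α (shS T s b)).1 - bi (tt g h α (shS T s b')).1
    with he
  set e' : Finset ι → ℤ := fun T => bi (tt g h α (shS T s b)).2 - bi (tt g h α (shS T s b')).2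
    with he'
  have s0 : ∀ v : Pt q, shS ∅ s v = v := fun v => by funext j; simp [shS]
  have hee : e ∅ ≠ 0 ∨ e' ∅ ≠ 0 := by
    by_contra hcon
    push Not at hcon
    apply hne
    have h1 := bi_inj hcon.1
    have h2 := bi_inj hcon.2
    rw [s0, s0] at h1 h2
    exact Prod.ext h1 h2
  obtain ⟨k, hk, hkk⟩ := hO p m g h F L (e ∅) (e' ∅) (bi_sub _ _) (bi_sub _ _) hee
  -- `k` is prime to `p`
  have hpk : ¬ p ∣ k := by
    have hm1 : m ≠ 1 := by have := F.hm; omega
    have hmf := Nat.minFac_prime hm1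
    have hmd := Nat.minFac_dvd m
    have hlt := F.hlt _ hmf hmd
    have hodd := F.odd
    have h3 : 3 ≤ m.minFac := by
      have h2 := hmf.two_le
      have : m.minFac ≠ 2 := by
        intro h2'
        rw [h2'] at hmd
        have := Nat.odd_iff.mp hodd
        omega
      omega
    intro hd
    rcases hk with hk | hk | hk
    · subst hk
      have := Nat.le_of_dvd (by norm_num) hd
      omega
    · subst hk
      have := Nat.le_of_dvd (by norm_num) hd
      omega
    · have := Nat.le_of_dvd (by omega) hd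
      omega
  have hev := hE ι q L α S.pri S.inj
  set V := co L m (Vm L m) k with hV
  set W := co L m (Wm L m) k with hW
  set A0 := co L m (Am L m g h false false) k with hA0
  -- COL, first form
  have c1 : ∀ v : Pt q, Zr m g h α (ops [] lg) (v, s) →
      ∑ T ∈ lg.toFinset.powerset, (-1) ^ T.card * ((∏ i ∈ T, α i ^ (s i).val) ^ k *
        (A0 + (bi (tt g h α (shS T s v)).1 : L) * V + (bi (tt g h α (shS T s v)).2 : L) * W)) =
        0 := by
    intro v hv
    refine key (ev α v) (hev.2.1 v).1 lg.toFinset.powerset (fun T => ev α (shS T s v))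
      (fun T => ∏ i ∈ T, α i ^ (s i).val) (fun T => A0 + (bi (tt g h α (shS T s v)).1 : L) * V +
        (bi (tt g h α (shS T s v)).2 : L) * W) k
      (fun T _ => ev_shS hE S.pri S.inj T s v) ?_
    rw [← hC ι q p m g h L a α S lg hlg v s hv k hpk]
    refine Finset.sum_congr rfl (fun T _ => ?_)
    rw [co_Am hA F L]
  -- COL, second form
  have c2 : ∀ v : Pt q, Zr m g h α (ops [] lg) (-v, -s) →
      ∑ T ∈ lg.toFinset.powerset, (-1) ^ T.card * ((∏ i ∈ T, (α i)⁻¹ ^ (s i).val) ^ k *
        (A0 + (bi (tt g h α (shS T s v)).2 : L) * V + (bi (tt g h α (shS T s v)).1 : L) * W)) =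
        0 := by
    intro v hv
    refine key (ev α v)⁻¹ (inv_ne_zero (hev.2.1 v).1) lg.toFinset.powerset
      (fun T => ev α (shS T (-s) (-v)))
      (fun T => ∏ i ∈ T, (α i)⁻¹ ^ (s i).val) (fun T => A0 +
        (bi (tt g h α (shS T s v)).2 : L) * V + (bi (tt g h α (shS T s v)).1 : L) * W) k
      (fun T _ => ?_) ?_
    · show ev α (shS T (-s) (-v)) = _
      rw [shS_neg, (hev.2.1 (shS T s v)).2.2, ev_shS hE S.pri S.inj T s v, mul_inv]
      congr 1
      rw [← Finset.prod_inv_distrib]
      exact Finset.prod_congr rfl (fun i _ => by rw [inv_pow])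
    · rw [← hC ι q p m g h L a α S lg hlg (-v) (-s) hv k hpk]
      refine Finset.sum_congr rfl (fun T _ => ?_)
      rw [co_Am hA F L]
      have h1 : (tt g h α (shS T (-s) (-v))).1 = (tt g h α (shS T s v)).2 := by
        rw [shS_neg]; rfl
      have h2 : (tt g h α (shS T (-s) (-v))).2 = (tt g h α (shS T s v)).1 := by
        rw [shS_neg]
        show ty g h (ev α (- -shS T s v)) = _
        rw [neg_neg]
        rfl
      rw [h1, h2]
  have hG1 := hG k hk
  rcases hkk with hkk | hkk
  · refine (hG1 e e' (fun T => ⟨bi_sub _ _, bi_sub _ _⟩) hkk).1 ?_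
    have h1 := c1 b z1
    have h2 := c1 b' z3
    have h3 := congrArg₂ (· - ·) h1 h2
    simp only [sub_self, ← Finset.sum_sub_distrib] at h3
    rw [← h3]
    refine Finset.sum_congr rfl (fun T _ => ?_)
    rw [Finset.prod_pow]
    simp only [he, he', Int.cast_sub]
    ring
  · refine (hG1 e' e (fun T => ⟨bi_sub _ _, bi_sub _ _⟩) hkk).2 ?_
    have h1 := c2 b z2
    have h2 := c2 b' z4
    have h3 := congrArg₂ (· - ·) h1 h2
    simp only [sub_self, ← Finset.sum_sub_distrib] at h3
    rw [← h3]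
    refine Finset.sum_congr rfl (fun T _ => ?_)
    rw [Finset.prod_pow]
    simp only [he, he', Int.cast_sub]
    ring

end Pool.Agent.CYE.H10
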